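import Pool.Agent.H947R2.OPhi7

set_option autoImplicit false

namespace Pool.Agent.Results.MP_9abc65_al.SolvableByPrimePower

open Pool.Agent.H947R2.OPhi

/-- Let `G` be a finite group with a solvable normal subgroup `R` such that `G ⧸ R` is a direct
product of finitely many groups all of whose elements have prime power order (for example any
finite solvable group, with `R = G` and the empty product).  Then the sum of
`o(x) / φ(o(x))` over `G` is at most the same sum over the cyclic group of the same order. -/
theorem result : ∀ (G : Type) [Group G] [Fintype G] (C : Type) [Group C] [Fintype C]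
    (R : Subgroup G) [R.Normal] (n : ℕ) (H : Fin n → Type) [∀ i, Group (H i)],
    Group.IsSolvable R →
    (∀ i, ∀ h : H i, IsPrimePow (orderOf h) ∨ h = 1) →
    Nonempty ((G ⧸ R) ≃* (∀ i, H i)) →
    IsCyclic C → Fintype.card C = Fintype.card G →
      (∑ x : G, ((orderOf x : ℚ) / (Nat.totient (orderOf x) : ℚ))) ≤
        ∑ x : C, ((orderOf x : ℚ) / (Nat.totient (orderOf x) : ℚ)) := by
  intro G _ _ C _ _ R hRn n H hHg hR hH he hC hcard
  have h := good_SC (G := G) ⟨R, hRn, hR, n, H, hHg, hH, he⟩
  exact ineq_of_SC h.1 C (by rw [Nat.card_eq_fintype_card, Nat.card_eq_fintype_card, hcard])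

end Pool.Agent.Results.MP_9abc65_al.SolvableByPrimePower
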